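import Pool.Agent.helper90.IV.Spec

/-! # MP_26dbae_co, interval theorem: row PV (popular value) -/

set_option autoImplicit false

open scoped BigOperators

namespace Pool.Agent.helper83.IV

open Pool.Agent.helper23.TH Pool.Agent.KS Pool.Agent.IV

noncomputable section

open Classical

/-- membership in a filter, any instance -/
theorem PV_mf {α : Type} (s : Finset α) (p : α → Prop) (h : DecidablePred p) (a : α) :
    a ∈ @Finset.filter α p h s ↔ a ∈ s ∧ p a :=
  @Finset.mem_filter α p h s a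

/-- pigeonhole: if every element of `F` satisfies one of finitely many properties, one of them is satisfied by a
proportion at least `1 / card Ω` of the elements. -/
theorem PV_pigeon {α Ω : Type} [Fintype Ω] (F : Finset α) (p : Ω → α → Prop) (h : ∀ x ∈ F, ∃ ω, p ω x)
    (hF : F.Nonempty) : ∃ ω, F.card ≤ Fintype.card Ω * (F.filter fun x => p ω x).card := by
  by_contra hcon
  push Not at hcon
  obtain ⟨x₁, hx₁⟩ := hF
  obtain ⟨ω₁, _⟩ := h x₁ hx₁
  have hne : (Finset.univ : Finset Ω).Nonempty := ⟨ω₁, Finset.mem_univ _⟩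
  have hsub : F ⊆ Finset.univ.biUnion fun ω : Ω => F.filter fun x => p ω x := by
    intro x hx
    obtain ⟨ω, hω⟩ := h x hx
    exact Finset.mem_biUnion.2 ⟨ω, Finset.mem_univ _, Finset.mem_filter.2 ⟨hx, hω⟩⟩
  have h1 : F.card ≤ ∑ ω : Ω, (F.filter fun x => p ω x).card :=
    (Finset.card_le_card hsub).trans Finset.card_biUnion_le
  have h2 : ∑ ω : Ω, Fintype.card Ω * (F.filter fun x => p ω x).card < ∑ _ω : Ω, F.card :=
    Finset.sum_lt_sum_of_nonempty hne fun ω _ => hcon ω
  rw [← Finset.mul_sum, Finset.sum_const, Finset.card_univ, smul_eq_mul] at h2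
  have h3 := Nat.mul_le_mul_left (Fintype.card Ω) h1
  omega

/-- pigeonhole on values -/
theorem PV_pigeon' {α β : Type} (F : Finset α) (f : α → β) (S : Finset β) (h : ∀ x ∈ F, f x ∈ S)
    (hF : F.Nonempty) : ∃ v, F.card ≤ S.card * (F.filter fun x => f x = v).card := by
  obtain ⟨ω, hω⟩ := PV_pigeon (Ω := S) F (fun v x => f x = v.1) (fun x hx => ⟨⟨f x, h x hx⟩, rfl⟩) hF
  refine ⟨ω.1, ?_⟩
  rw [Fintype.card_coe] at hω
  exact hω

/-- elements of `tkL` -/
theorem PV_mem_tkL {I : Type} [Fintype I] {V K : Type} (T : Tr I) (lam : Fin 2 → V → V → K) (gh : T.R → Option I)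
    (W : Finset I) (y : T.R → V) (x : I → V) (t : Tk V K) : t ∈ tkL T lam gh W y x ↔
      (∃ u ∈ W, t = Sum.inl (x u)) ∨
        ∃ (l : Fin 2) (e : T.Ed), T.tc W e ∧ lve T gh e ∧ t = Sum.inr (l, T.col lam l x y e) := by
  unfold tkL
  rw [Finset.mem_union, Finset.mem_image, Finset.mem_image]
  constructor
  · rintro (⟨u, hu, rfl⟩ | ⟨p, hp, rfl⟩)
    · exact Or.inl ⟨u, hu, rfl⟩
    · rw [Finset.mem_filter] at hp
      exact Or.inr ⟨p.1, p.2, hp.2.1, hp.2.2, rfl⟩
  · rintro (⟨u, hu, rfl⟩ | ⟨l, e, h1, h2, rfl⟩)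
    · exact Or.inl ⟨u, hu, rfl⟩
    · exact Or.inr ⟨(l, e), Finset.mem_filter.2 ⟨Finset.mem_univ _, h1, h2⟩, rfl⟩

/-- a maximal family -/
theorem PV_max {I : Type} [Fintype I] {V K : Type} (T : Tr I) (lam : Fin 2 → V → V → K) (gh : T.R → Option I)
    (B : Finset I) (y : T.R → V) (P : ℕ) (F : Finset (I → V)) (h : ¬ Pk T lam gh B y P F) :
    ∃ l < P, Pk T lam gh B y l F ∧ ¬ Pk T lam gh B y (l + 1) F := by
  have h0 : Pk T lam gh B y 0 F := ⟨fun j => j.elim0, fun j => j.elim0, fun j => j.elim0⟩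
  induction P with
  | zero => exact absurd h0 h
  | succ P ih =>
    by_cases hP : Pk T lam gh B y P F
    · exact ⟨P, Nat.lt_succ_self P, hP, h⟩
    · obtain ⟨l, hl, h1, h2⟩ := ih hP
      exact ⟨l, hl.trans (Nat.lt_succ_self P), h1, h2⟩

/-- every element of `F` meets a maximal family -/
theorem PV_meet {I : Type} [Fintype I] {V K : Type} (T : Tr I) (lam : Fin 2 → V → V → K) (gh : T.R → Option I)
    (B : Finset I) (y : T.R → V) (l : ℕ) (F : Finset (I → V)) (a : Fin l → I → V) (ha : ∀ j, a j ∈ F)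
    (hd : ∀ j j', j ≠ j' → Disjoint (tkL T lam gh Bᶜ y (a j)) (tkL T lam gh Bᶜ y (a j')))
    (h : ¬ Pk T lam gh B y (l + 1) F) (x : I → V) (hx : x ∈ F) :
    ∃ j, ¬ Disjoint (tkL T lam gh Bᶜ y (a j)) (tkL T lam gh Bᶜ y x) := by
  by_contra hcon
  push Not at hcon
  apply h
  refine ⟨Fin.cons x a, ?_, ?_⟩
  · intro j
    induction j using Fin.cases with
    | zero => exact hx
    | succ j => exact ha j
  · intro j j' hjj
    induction j using Fin.cases with
    | zero =>
      induction j' using Fin.cases with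
      | zero => exact absurd rfl hjj
      | succ j' => exact (hcon j').symm
    | succ j =>
      induction j' using Fin.cases with
      | zero => exact hcon j
      | succ j' => exact hd j j' fun h' => hjj (congrArg Fin.succ h')

/-- the pairs with a common colour -/
theorem PV_color {I : Type} [Fintype I] {V K : Type} [Fintype V] (T : Tr I) (A : V → V → Prop)
    (lam : Fin 2 → V → V → K) (P₁ : ℕ) (W B : Finset I) (y : T.R → V) (G : Finset (I → V)) (hp : PrE A lam)
    (hWB : W ⊆ B) (hne : G.Nonempty) (hG : ∀ x ∈ G, T.hom A x y ∧ NCF T A lam P₁ W x y)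
    (hB : ∀ x ∈ G, ∀ x' ∈ G, ∀ i ∈ B, x i = x' i) (l : Fin 2) (e : T.Ed) (g : K) (he : T.tc Bᶜ e)
    (hcol : ∀ x ∈ G, T.col lam l x y e = g) :
    ∃ u, u ∉ B ∧ ∃ v, G.card ≤ (P₁ + 1) * (G.filter fun x => x u = v).card := by
  obtain ⟨x₀, hx₀⟩ := hne
  have hsingle : ∀ u, (∀ x ∈ G, x u = x₀ u) → G.card ≤ (P₁ + 1) * (G.filter fun x => x u = x₀ u).card := by
    intro u hu
    rw [Finset.filter_true_of_mem hu]
    exact Nat.le_mul_of_pos_left _ (Nat.succ_pos _)
  have hc0 := hcol x₀ hx₀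
  rcases e with ⟨⟨i, j⟩, hij⟩ | r
  · have hij' : T.par i = some j := hij
    have he' : i ∈ Bᶜ ∨ j ∈ Bᶜ := he
    have hcol' : ∀ x ∈ G, lam l (x i) (x j) = lam l (x₀ i) (x₀ j) := fun x hx => (hcol x hx).trans hc0.symm
    by_cases hi : i ∈ B
    · have hj : j ∉ B := by
        rcases he' with h | h
        · exact absurd hi (Finset.mem_compl.1 h)
        · exact Finset.mem_compl.1 h
      refine ⟨j, hj, x₀ j, hsingle j fun x hx => ?_⟩
      have h1 : x i = x₀ i := hB x hx x₀ hx₀ i hi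
      have h2 := hcol' x hx
      have h3 := (hG x hx).1.1 i j hij'
      have h4 := (hG x₀ hx₀).1.1 i j hij'
      rw [h1] at h2 h3
      exact hp.prop l _ _ _ h3 h4 h2
    · by_cases hj : j ∈ B
      · refine ⟨i, hi, x₀ i, hsingle i fun x hx => ?_⟩
        have h1 : x j = x₀ j := hB x hx x₀ hx₀ j hj
        have h2 := hcol' x hx
        have h3 := (hG x hx).1.1 i j hij'
        have h4 := (hG x₀ hx₀).1.1 i j hij'
        rw [h1] at h2 h3
        rw [hp.csymm l _ _ h3, hp.csymm l _ _ h4] at h2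
        exact hp.prop l _ _ _ (hp.symm _ _ h3) (hp.symm _ _ h4) h2
      · refine ⟨i, hi, ?_⟩
        have hcard := (hG x₀ hx₀).2 l i j hij' (fun h => hi (hWB h)) (fun h => hj (hWB h))
        obtain ⟨v, hv⟩ := PV_pigeon' G (fun x => x i)
          (insert (x₀ i) ((CFs T A lam x₀ y l i j).image Prod.fst)) (fun x hx => by
            by_cases h1 : x i = x₀ i
            · rw [h1]
              exact Finset.mem_insert_self _ _
            · refine Finset.mem_insert_of_mem (Finset.mem_image.2 ⟨(x i, x j), ?_, rfl⟩)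
              refine (PV_mf _ _ _ _).2 ?_
              have h2 := hcol' x hx
              have h3 := (hG x hx).1.1 i j hij'
              have h4 := (hG x₀ hx₀).1.1 i j hij'
              refine ⟨Finset.mem_univ _, h3, h1, ?_, h2, ?_, ?_⟩
              · intro h5
                apply h1
                change x j = x₀ j at h5
                rw [h5] at h2 h3
                rw [hp.csymm l _ _ h3, hp.csymm l _ _ h4] at h2
                exact hp.prop l _ _ _ (hp.symm _ _ h3) (hp.symm _ _ h4) h2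
              · rintro r rfl
                exact (hG x hx).1.2 r
              · rintro r rfl
                exact (hG x hx).1.2 r) ⟨x₀, hx₀⟩
        refine ⟨v, hv.trans (Nat.mul_le_mul_right _ ?_)⟩
        refine (Finset.card_insert_le _ _).trans ?_
        have h6 : ((CFs T A lam x₀ y l i j).image Prod.fst).card ≤ (CFs T A lam x₀ y l i j).card :=
          Finset.card_image_le
        omega
  · have hr : r.1 ∉ B := Finset.mem_compl.1 he
    refine ⟨r.1, hr, x₀ r.1, hsingle r.1 fun x hx => ?_⟩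
    have h2 : lam l (x r.1) (y r) = lam l (x₀ r.1) (y r) := (hcol x hx).trans hc0.symm
    have h3 := (hG x hx).1.2 r
    have h4 := (hG x₀ hx₀).1.2 r
    rw [hp.csymm l _ _ h3, hp.csymm l _ _ h4] at h2
    exact hp.prop l _ _ _ (hp.symm _ _ h3) (hp.symm _ _ h4) h2

/-- **PV**. Popular value. -/
theorem PV : PV_stmt := by
  intro I _ T P P₁
  refine ⟨(P * (Fintype.card I * Fintype.card I) + P * (2 * (Fintype.card T.Ed * Fintype.card T.Ed))) * (P₁ + 1), ?_⟩
  intro V K _ A lam gh W B y F hp hWB hBu hF hFh hFB hPk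
  obtain ⟨l, hl, ⟨a, ha, hd⟩, hmax⟩ := PV_max T lam gh B y P F hPk
  have hmeet := PV_meet T lam gh B y l F a ha hd hmax
  let p : (Fin l × I × I) ⊕ (Fin l × Fin 2 × T.Ed × T.Ed) → (I → V) → Prop := fun ω x =>
    match ω with
    | .inl (j, u, u') => u ∉ B ∧ x u = a j u'
    | .inr (j, c, e, e') => T.tc Bᶜ e ∧ T.col lam c x y e = T.col lam c (a j) y e'
  have hcov : ∀ x ∈ F, ∃ ω, p ω x := by
    intro x hx
    obtain ⟨j, hj⟩ := hmeet x hx
    rw [Finset.not_disjoint_iff] at hj
    obtain ⟨t, ht1, ht2⟩ := hj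
    rw [PV_mem_tkL] at ht1 ht2
    rcases ht1 with ⟨u', hu', ht1⟩ | ⟨c', e', he1', he2', ht1⟩
    · rcases ht2 with ⟨u, hu, ht2⟩ | ⟨c, e, he1, he2, ht2⟩
      · refine ⟨.inl (j, u, u'), Finset.mem_compl.1 hu, ?_⟩
        rw [ht1] at ht2
        exact (Sum.inl.inj ht2).symm
      · rw [ht1] at ht2
        exact absurd ht2 (by simp)
    · rcases ht2 with ⟨u, hu, ht2⟩ | ⟨c, e, he1, he2, ht2⟩
      · rw [ht1] at ht2
        exact absurd ht2 (by simp)
      · rw [ht1] at ht2
        have h1 := Sum.inr.inj ht2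
        have h2 : c' = c := congrArg Prod.fst h1
        have h3 : T.col lam c' (a j) y e' = T.col lam c x y e := congrArg Prod.snd h1
        subst h2
        exact ⟨.inr (j, c', e, e'), he1, h3.symm⟩
  obtain ⟨ω, hω⟩ := PV_pigeon F p hcov hF
  have hcardΩ : Fintype.card ((Fin l × I × I) ⊕ (Fin l × Fin 2 × T.Ed × T.Ed)) ≤
      P * (Fintype.card I * Fintype.card I) + P * (2 * (Fintype.card T.Ed * Fintype.card T.Ed)) := by
    rw [Fintype.card_sum]
    simp only [Fintype.card_prod, Fintype.card_fin]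
    exact Nat.add_le_add (Nat.mul_le_mul_right _ hl.le) (Nat.mul_le_mul_right _ hl.le)
  have hω' := hω.trans (Nat.mul_le_mul_right _ hcardΩ)
  have hGne : (F.filter fun x => p ω x).Nonempty := by
    rw [← Finset.card_pos]
    have := hF.card_pos
    rcases Nat.eq_zero_or_pos (F.filter fun x => p ω x).card with h | h
    · rw [h] at hω'
      omega
    · exact h
  have hkey : ∀ (G : Finset (I → V)) (w : V) (u : I), (∀ x ∈ G, x u = w) →
      G.card ≤ (P₁ + 1) * (G.filter fun x => x u = w).card := by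
    intro G w u h
    rw [Finset.filter_true_of_mem h]
    exact Nat.le_mul_of_pos_left _ (Nat.succ_pos _)
  suffices hsuf : ∃ u, u ∉ B ∧ ∃ v, (F.filter fun x => p ω x).card ≤
      (P₁ + 1) * ((F.filter fun x => p ω x).filter fun x => x u = v).card by
    obtain ⟨u, hu, v, hv⟩ := hsuf
    refine ⟨u, hu, v, ?_⟩
    refine (hω'.trans (Nat.mul_le_mul_left _ hv)).trans ?_
    rw [← mul_assoc]
    refine Nat.mul_le_mul_left _ (Finset.card_le_card ?_)
    exact Finset.filter_subset_filter _ (Finset.filter_subset _ _)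
  rcases ω with ⟨j, u, u'⟩ | ⟨j, c, e, e'⟩
  · obtain ⟨x₁, hx₁⟩ := hGne
    refine ⟨u, ((PV_mf _ _ _ _).1 hx₁).2.1, a j u', ?_⟩
    exact hkey _ _ _ fun x hx => ((PV_mf _ _ _ _).1 hx).2.2
  · obtain ⟨x₁, hx₁⟩ := id hGne
    refine PV_color T A lam P₁ W B y _ hp hWB hGne (fun x hx => hFh x ((PV_mf _ _ _ _).1 hx).1)
      (fun x hx x' hx' => hFB x ((PV_mf _ _ _ _).1 hx).1 x' ((PV_mf _ _ _ _).1 hx').1) c e
      (T.col lam c (a j) y e') ((PV_mf _ _ _ _).1 hx₁).2.1 (fun x hx => ((PV_mf _ _ _ _).1 hx).2.2)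

end

end Pool.Agent.helper83.IV
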